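import Pool.Agent.W841.PK.Api

/-! PK-SUMX: total degree at removal. -/

set_option autoImplicit false

namespace W349.PK

open Finset W841.PK
open scoped Classical

noncomputable section

variable {n : ℕ} (S : Finset (Fin n)) (ρ : Rule n) (G : SimpleGraph (Fin n))

lemma ww_notMem_RR {i j : ℕ} (h : i < j) : ww S ρ i G ∉ RR S ρ j G := by
  intro hm
  have h1 : ww S ρ i G ∈ RR S ρ (i + 1) G := RR_anti S ρ G (Nat.succ_le_of_lt h) hm
  rw [RR_succ] at h1
  exact absurd rfl (ne_of_mem_erase h1)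

lemma NN_anti {i j : ℕ} (h : i ≤ j) : NN S ρ j G ⊆ NN S ρ i G :=
  sdiff_subset_sdiff (RR_anti S ρ G h) (Subset.refl _)

lemma rr_anti {i j : ℕ} (h : i ≤ j) : rr S ρ j G ≤ rr S ρ i G := card_le_card (NN_anti S ρ G h)

/-- a vertex which is gone was removed at some step -/
lemma exists_removed {t : ℕ} {b : Fin n} (h : b ∉ RR S ρ t G) :
    ∃ i < t, ww S ρ i G = b ∧ b ∈ RR S ρ i G := by
  induction t with
  | zero => exact absurd (mem_univ b) (by rwa [RR_zero] at h)
  | succ t ih =>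
    by_cases hb : b ∈ RR S ρ t G
    · refine ⟨t, Nat.lt_succ_self t, ?_, hb⟩
      rw [RR_succ, mem_erase] at h
      by_contra hne
      exact h ⟨fun h' => hne h'.symm, hb⟩
    · obtain ⟨i, hi, h1, h2⟩ := ih hb
      exact ⟨i, Nat.lt_succ_of_lt hi, h1, h2⟩

/-- the antisymmetric half of a double sum -/
lemma half_sum {T : Finset ℕ} (f : ℕ → ℕ → ℝ) (hs : ∀ t u, f t u = f u t)
    (h0 : ∀ t, f t t = 0) :
    ∑ t ∈ T, ∑ u ∈ T, f t u = 2 * ∑ t ∈ T, ∑ u ∈ T, (if t < u then f t u else 0) := by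
  have h1 : ∑ t ∈ T, ∑ u ∈ T, f t u = ∑ t ∈ T, ∑ u ∈ T, (if t < u then f t u else 0) +
      ∑ t ∈ T, ∑ u ∈ T, (if u < t then f t u else 0) := by
    rw [← sum_add_distrib]
    refine sum_congr rfl fun t _ => ?_
    rw [← sum_add_distrib]
    refine sum_congr rfl fun u _ => ?_
    rcases lt_trichotomy t u with h | h | h
    · rw [if_pos h, if_neg (by omega), add_zero]
    · subst h; simp [h0]
    · rw [if_neg (by omega), if_pos h, zero_add]
  have h2 : ∑ t ∈ T, ∑ u ∈ T, (if u < t then f t u else 0) =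
      ∑ t ∈ T, ∑ u ∈ T, (if t < u then f t u else 0) := by
    rw [sum_comm]
    refine sum_congr rfl fun t _ => sum_congr rfl fun u _ => ?_
    split_ifs
    · exact hs _ _
    · rfl
  rw [h1, h2]; ring

lemma sqrt_fac {x y z : ℝ} (hx : 0 ≤ x) (hy : 0 ≤ y) :
    √(x ^ 2 * (y * z)) = x * (√y * √z) := by
  rw [Real.sqrt_mul (by positivity), Real.sqrt_sq hx, Real.sqrt_mul hy]

lemma pr_le {C : ℝ} (hC : 0 ≤ C) (hP : PRev C G) (hn : 1 ≤ n) (A B : Finset (Fin n)) :
    |∑ a ∈ A, ∑ b ∈ B, ee G a b| ≤ 2 * (C * ((n : ℝ) * √(n : ℝ) * √(Real.log n))) := by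
  refine le_trans (hP A B) ?_
  have hA : (A.card : ℝ) ≤ n := by
    exact_mod_cast (card_le_univ A).trans_eq (Fintype.card_fin n)
  have hB : (B.card : ℝ) ≤ n := by
    exact_mod_cast (card_le_univ B).trans_eq (Fintype.card_fin n)
  have hl : 0 ≤ Real.log n := Real.log_nonneg (by exact_mod_cast hn)
  have h1 : (A.card : ℝ) * B.card * ((A.card : ℝ) + B.card) * Real.log n ≤
      (2 * (n : ℝ)) ^ 2 * ((n : ℝ) * Real.log n) := by
    have h2 : (A.card : ℝ) * B.card ≤ n * n := by
      apply mul_le_mul hA hB (by positivity) (by positivity)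
    have h3 : (A.card : ℝ) * B.card * ((A.card : ℝ) + B.card) ≤ (n * n) * (n + n) := by
      apply mul_le_mul h2 (by linarith) (by positivity) (by positivity)
    have h4 : (A.card : ℝ) * B.card * ((A.card : ℝ) + B.card) * Real.log n ≤
        (n * n) * (n + n) * Real.log n := mul_le_mul_of_nonneg_right h3 hl
    have h5 : 0 ≤ (n : ℝ) * n * n * Real.log n := by positivity
    nlinarith
  have h2 := Real.sqrt_le_sqrt h1
  rw [sqrt_fac (by positivity) (by positivity)] at h2
  calc C * √((A.card : ℝ) * B.card * ((A.card : ℝ) + B.card) * Real.log n)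
      ≤ C * (2 * (n : ℝ) * (√(n : ℝ) * √(Real.log n))) := mul_le_mul_of_nonneg_left h2 hC
    _ = _ := by ring

theorem sumx (hb : S_Basic) (_hc : S_PRC) : S_SumX := by
  intro V0 C hV hC
  refine ⟨2 * C * √(2 * V0) + 3 * C + 2, 2, ?_⟩
  intro n hn S ρ G hS hρ hP
  have hn1 : 1 ≤ n := by omega
  have hnR : (0 : ℝ) < n := by exact_mod_cast hn1
  have hn2 : (2 : ℝ) ≤ n := by exact_mod_cast hn
  have hV0 : 0 < V0 := by linarith
  set L := √(Real.log n) with hL
  have hL0 : 1 / 2 ≤ L := by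
    rw [hL]
    apply Real.le_sqrt_of_sq_le
    have h1 : Real.log 2 ≤ Real.log n := Real.log_le_log (by norm_num) hn2
    have h2 := Real.log_two_gt_d9
    norm_num
    linarith
  have hL0' : 0 ≤ L := by linarith
  have hlog : 0 ≤ Real.log n := Real.log_nonneg (by linarith)
  rw [← sum_filter]
  set T := (range n).filter (fun t => Act S ρ t G V0) with hT
  set w : ℕ → Fin n := fun t => ww S ρ t G with hw
  have hTm : ∀ t ∈ T, t < n ∧ w t ∉ S ∧ w t ∈ RR S ρ t G ∧ (n : ℝ) / V0 ≤ (rr S ρ t G : ℝ) := by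
    intro t ht
    rw [hT, mem_filter, mem_range] at ht
    exact ⟨ht.1, ht.2.1.1, ht.2.1.2, ht.2.2⟩
  have hcardT : (T.card : ℝ) ≤ n := by
    have : T.card ≤ (range n).card := card_filter_le _ _
    rw [card_range] at this
    exact_mod_cast this
  have hinj : Set.InjOn w T := by
    intro t ht u hu h
    by_contra hne
    rcases lt_or_gt_of_ne hne with h1 | h1
    · apply ww_notMem_RR S ρ G h1
      have := (hTm u hu).2.2.1
      rw [← h] at this
      exact this
    · apply ww_notMem_RR S ρ G h1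
      have := (hTm t ht).2.2.1
      rw [h] at this
      exact this
  set W := T.image w with hW
  -- (a) the positive part
  have hpos : ∀ t ∈ T, Xt S ρ t G (w t) ≤ C * √(2 * V0) * (√(n : ℝ) * L) := by
    intro t ht
    obtain ⟨h1, h2, h3, h4⟩ := hTm t ht
    have h5 := ((hb n S ρ t G hρ).2.2.1 h1 h2).2.2.2.2.2
    refine le_trans h5 ?_
    set r : ℝ := (rr S ρ t G : ℝ) with hr
    have hr0 : 0 < r := lt_of_lt_of_le (by positivity) h4
    unfold Xb
    rw [← hr, div_le_iff₀ hr0]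
    refine le_trans (le_abs_self _) ?_
    refine le_trans (hP (NN S ρ t G) (RR S ρ t G)) ?_
    have hNc : ((NN S ρ t G).card : ℝ) = r := rfl
    rw [hNc]
    have hrn : r ≤ n := by
      rw [hr]
      have : (NN S ρ t G).card ≤ n := (card_le_univ _).trans_eq (Fintype.card_fin n)
      exact_mod_cast this
    have hRn : ((RR S ρ t G).card : ℝ) ≤ n := by
      have : (RR S ρ t G).card ≤ n := (card_le_univ _).trans_eq (Fintype.card_fin n)
      exact_mod_cast this
    have hnr : (n : ℝ) ≤ V0 * r := by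
      rw [div_le_iff₀ hV0] at h4; linarith
    have h6 : r * ((RR S ρ t G).card : ℝ) * (r + (RR S ρ t G).card) * Real.log n ≤
        r ^ 2 * ((2 * V0) * (n * Real.log n)) := by
      have e1 : ((RR S ρ t G).card : ℝ) * (r + (RR S ρ t G).card) ≤ n * (n + n) :=
        mul_le_mul hRn (by linarith) (by positivity) (by positivity)
      have e2 : (n : ℝ) * (n + n) ≤ (V0 * r) * (2 * n) := by
        have := mul_le_mul_of_nonneg_right hnr (by positivity : (0 : ℝ) ≤ 2 * n)
        linarith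
      have e3 : r * (((RR S ρ t G).card : ℝ) * (r + (RR S ρ t G).card)) ≤
          r * ((V0 * r) * (2 * n)) := mul_le_mul_of_nonneg_left (e1.trans e2) hr0.le
      have e4 := mul_le_mul_of_nonneg_right e3 hlog
      nlinarith
    have h7 := Real.sqrt_le_sqrt h6
    rw [sqrt_fac hr0.le (by positivity), Real.sqrt_mul hnR.le (Real.log n)] at h7
    calc C * √(r * ((RR S ρ t G).card : ℝ) * (r + (RR S ρ t G).card) * Real.log n)
        ≤ C * (r * (√(2 * V0) * (√(n : ℝ) * √(Real.log n)))) :=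
          mul_le_mul_of_nonneg_left h7 (by linarith)
      _ = _ := by rw [hL]; ring
  -- (b) the signed sum
  set Ns : Finset (Fin n) := (univ \ S) \ W with hNs
  have hsplit : ∀ t ∈ T, Xt S ρ t G (w t) =
      ∑ u ∈ T, (if t < u then ee G (w t) (w u) else 0) + ∑ b ∈ Ns, ee G (w t) b +
        ∑ b ∈ SS S ρ t G, ee G (w t) b := by
    intro t ht
    obtain ⟨h1, h2, h3, h4⟩ := hTm t ht
    have e1 : Xt S ρ t G (w t) = ∑ b ∈ SS S ρ t G, ee G (w t) b +
        ∑ b ∈ NN S ρ t G, ee G (w t) b := by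
      unfold Xt
      rw [← SS_union_NN, sum_union (disjoint_SS_NN S ρ t G)]
    have e2 : ∑ b ∈ NN S ρ t G, ee G (w t) b =
        ∑ b ∈ NN S ρ t G \ W, ee G (w t) b + ∑ b ∈ NN S ρ t G ∩ W, ee G (w t) b := by
      rw [add_comm, sum_inter_add_sum_sdiff]
    have e3 : NN S ρ t G \ W = Ns := by
      ext b
      simp only [hNs, mem_sdiff, mem_univ, true_and, NN]
      constructor
      · rintro ⟨⟨_, h5⟩, h6⟩
        exact ⟨h5, h6⟩
      · rintro ⟨h5, h6⟩
        refine ⟨⟨?_, h5⟩, h6⟩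
        by_contra hb'
        obtain ⟨i, hi, h7, h8⟩ := exists_removed S ρ G hb'
        apply h6
        rw [hW, mem_image]
        refine ⟨i, ?_, h7⟩
        rw [hT, mem_filter, mem_range]
        refine ⟨by omega, ⟨?_, ?_⟩, ?_⟩
        · rw [h7]; exact h5
        · rw [h7]; exact h8
        · refine le_trans h4 ?_
          exact_mod_cast rr_anti S ρ G hi.le
    have e4 : ∑ b ∈ NN S ρ t G ∩ W, ee G (w t) b =
        ∑ u ∈ T, (if t < u then ee G (w t) (w u) else 0) := by
      rw [inter_comm, ← filter_mem_eq_inter, sum_filter, hW, sum_image hinj]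
      refine sum_congr rfl fun u hu => ?_
      obtain ⟨h5, h6, h7, h8⟩ := hTm u hu
      rcases lt_trichotomy t u with h | h | h
      · rw [if_pos h, if_pos]
        exact NN_anti S ρ G h.le (by
          simp only [NN, mem_sdiff]; exact ⟨h7, h6⟩)
      · subst h
        rw [if_neg (lt_irrefl _), ee_self, ite_self]
      · rw [if_neg (show ¬ t < u by omega), if_neg]
        intro h9
        exact ww_notMem_RR S ρ G h (NN_sub S ρ t G h9)
    rw [e1, e2, e3, e4]; ring
  have hsigned : ∑ t ∈ T, Xt S ρ t G (w t) =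
      (1 / 2) * ∑ a ∈ W, ∑ b ∈ W, ee G a b + ∑ a ∈ W, ∑ b ∈ Ns, ee G a b +
        ∑ t ∈ T, ∑ b ∈ SS S ρ t G, ee G (w t) b := by
    rw [sum_congr rfl hsplit, sum_add_distrib, sum_add_distrib]
    congr 2
    · have h1 := half_sum (T := T) (fun t u => ee G (w t) (w u))
        (fun t u => ee_comm G _ _) (fun t => ee_self G _)
      have h2 : ∑ a ∈ W, ∑ b ∈ W, ee G a b = ∑ t ∈ T, ∑ u ∈ T, ee G (w t) (w u) := by
        rw [hW, sum_image hinj]
        refine sum_congr rfl fun t _ => ?_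
        rw [sum_image hinj]
      rw [h2, h1]; ring
    · rw [hW, sum_image hinj]
  have hthird : |∑ t ∈ T, ∑ b ∈ SS S ρ t G, ee G (w t) b| ≤ n * √(n : ℝ) := by
    refine le_trans (abs_sum_le_sum_abs _ _) ?_
    have h1 : ∀ t ∈ T, |∑ b ∈ SS S ρ t G, ee G (w t) b| ≤ √(n : ℝ) := by
      intro t _
      refine le_trans (abs_sum_le_sum_abs _ _) ?_
      refine le_trans (sum_le_sum fun b _ => abs_ee_le G (w t) b) ?_
      rw [sum_const, nsmul_eq_mul, mul_one]
      have h2 : (SS S ρ t G).card ≤ S.card := card_le_card inter_subset_right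
      rw [hS] at h2
      refine le_trans (by exact_mod_cast h2 : ((SS S ρ t G).card : ℝ) ≤ (Nat.sqrt n : ℝ)) ?_
      apply Real.le_sqrt_of_sq_le
      have := Nat.sqrt_le' n
      exact_mod_cast this
    refine le_trans (sum_le_sum h1) ?_
    rw [sum_const, nsmul_eq_mul]
    exact mul_le_mul_of_nonneg_right hcardT (by positivity)
  set Q : ℝ := (n : ℝ) * √(n : ℝ) * L with hQ
  have hQ0 : 0 ≤ Q := by positivity
  have hb1 := pr_le G (by linarith : (0 : ℝ) ≤ C) hP hn1 W W
  have hb2 := pr_le G (by linarith : (0 : ℝ) ≤ C) hP hn1 W Ns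
  rw [← hL, ← hQ] at hb1 hb2
  have hsg : -(∑ t ∈ T, Xt S ρ t G (w t)) ≤ 3 * C * Q + n * √(n : ℝ) := by
    rw [hsigned]
    have := (abs_le.mp hb1).1
    have := (abs_le.mp hb2).1
    have := (abs_le.mp hthird).1
    linarith
  have hposS : ∑ t ∈ T, max (Xt S ρ t G (w t)) 0 ≤ C * √(2 * V0) * Q := by
    have h1 : ∀ t ∈ T, max (Xt S ρ t G (w t)) 0 ≤ C * √(2 * V0) * (√(n : ℝ) * L) :=
      fun t ht => max_le (hpos t ht) (by positivity)
    refine le_trans (sum_le_sum h1) ?_
    rw [sum_const, nsmul_eq_mul]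
    refine le_trans (mul_le_mul_of_nonneg_right hcardT (by positivity)) ?_
    rw [hQ]; apply le_of_eq; ring
  have habs : ∑ t ∈ T, |Xt S ρ t G (w t)| =
      2 * ∑ t ∈ T, max (Xt S ρ t G (w t)) 0 - ∑ t ∈ T, Xt S ρ t G (w t) := by
    rw [mul_sum, ← sum_sub_distrib]
    refine sum_congr rfl fun t _ => ?_
    rcases le_total 0 (Xt S ρ t G (w t)) with h | h
    · rw [abs_of_nonneg h, max_eq_left h]; ring
    · rw [abs_of_nonpos h, max_eq_right h]; ring
  have hfin : (n : ℝ) * √(n : ℝ) ≤ 2 * Q := by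
    rw [hQ]
    have : 0 ≤ (n : ℝ) * √(n : ℝ) := by positivity
    nlinarith
  calc ∑ t ∈ T, |Xt S ρ t G (ww S ρ t G)| = ∑ t ∈ T, |Xt S ρ t G (w t)| := rfl
    _ ≤ 2 * (C * √(2 * V0) * Q) + (3 * C * Q + 2 * Q) := by rw [habs]; linarith
    _ = (2 * C * √(2 * V0) + 3 * C + 2) * n * √(n : ℝ) * L := by rw [hQ]; ring

end

end W349.PK
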